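import Pool.Agent.Run7.h684.LD.Def

/-!
# Piece S_lapP of helper684: the Laplace transform of `e^u P(u)` (helper299)
-/

set_option autoImplicit false

open MeasureTheory Filter Topology Set Polynomial
open Pool.Agent.H295R2 (Nice Lap)
open Run7.h684.LD

namespace Pool.Agent.Run7.h299.LD

/-- integrability of `u^j e^{-wu}` on `(0, ∞)` -/
theorem int_mono (j : ℕ) {w : ℂ} (hw : 0 < w.re) :
    IntegrableOn (fun u : ℝ => (u : ℂ) ^ j * Complex.exp (-(w * u))) (Ioi 0) := by
  have h := integrableOn_rpow_mul_exp_neg_mul_rpow (p := 1) (s := (j : ℝ)) (b := w.re)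
    (by have : (0 : ℝ) ≤ j := j.cast_nonneg; linarith) one_pos hw
  refine Integrable.mono' h ?_ ?_
  · exact (by fun_prop : Continuous fun u : ℝ => (u : ℂ) ^ j * Complex.exp (-(w * u))).aestronglyMeasurable
  · refine (ae_restrict_mem measurableSet_Ioi).mono fun u hu => ?_
    have hu0 : (0 : ℝ) < u := hu
    rw [norm_mul, norm_pow, Complex.norm_real, Real.norm_eq_abs, abs_of_pos hu0,
      Complex.norm_exp, Real.rpow_natCast, Real.rpow_one]
    apply le_of_eq
    congr 2
    simp

/-- the Laplace transform of a monomial -/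
theorem lap_mono (j : ℕ) {w : ℂ} (hw : 0 < w.re) :
    ∫ u in Ioi (0 : ℝ), (u : ℂ) ^ j * Complex.exp (-(w * u)) = (j.factorial : ℂ) / w ^ (j + 1) := by
  have hw0 : w ≠ 0 := fun h => by simp [h] at hw
  induction j with
  | zero =>
    have h := integral_exp_mul_complex_Ioi (a := -w) (by simpa using hw) 0
    simp only [pow_zero, one_mul, Nat.factorial_zero, Nat.cast_one, zero_add, pow_one]
    simp only [neg_mul] at h
    rw [h]
    simp
  | succ j ih =>
    have hi1 := int_mono (j + 1) hw
    have hi0 := int_mono j hw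
    have hder : ∀ u ∈ Ici (0 : ℝ), HasDerivAt
        (fun u : ℝ => -((u : ℂ) ^ (j + 1) * Complex.exp (-(w * u)) / w))
        ((u : ℂ) ^ (j + 1) * Complex.exp (-(w * u)) -
          (j + 1) / w * ((u : ℂ) ^ j * Complex.exp (-(w * u)))) u := by
      intro u _
      have h1 : HasDerivAt (fun u : ℝ => (u : ℂ)) 1 u := Complex.ofRealCLM.hasDerivAt
      have h2 : HasDerivAt (fun u : ℝ => (u : ℂ) ^ (j + 1)) (((j + 1 : ℕ) : ℂ) * (u : ℂ) ^ j * 1) u := by
        have := h1.fun_pow (j + 1)
        simpa using this
      have h3 : HasDerivAt (fun u : ℝ => Complex.exp (-(w * u))) (Complex.exp (-(w * u)) * (-(w * 1))) u :=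
        ((h1.const_mul w).neg).cexp
      have h4 := ((h2.mul h3).div_const w).neg
      refine h4.congr_deriv ?_
      push_cast
      field_simp
      ring
    have hlim : Tendsto (fun u : ℝ => -((u : ℂ) ^ (j + 1) * Complex.exp (-(w * u)) / w)) atTop
        (𝓝 0) := by
      have h := tendsto_rpow_mul_exp_neg_mul_atTop_nhds_zero ((j + 1 : ℕ) : ℝ) w.re hw
      rw [tendsto_zero_iff_norm_tendsto_zero]
      have h' := h.div_const ‖w‖
      rw [zero_div] at h'
      refine h'.congr' ?_
      filter_upwards [eventually_gt_atTop (0 : ℝ)] with u hu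
      rw [norm_neg, norm_div, norm_mul, norm_pow, Complex.norm_real, Real.norm_eq_abs,
        abs_of_pos hu, Complex.norm_exp, Real.rpow_natCast]
      congr 3
      simp
    have hF := integral_Ioi_of_hasDerivAt_of_tendsto' hder
      (hi1.sub (hi0.const_mul _)) hlim
    rw [integral_sub hi1 (hi0.const_mul _), integral_const_mul, ih] at hF
    simp only [Complex.ofReal_zero, ne_eq, Nat.add_eq_zero_iff, one_ne_zero, and_false,
      not_false_eq_true, zero_pow, zero_mul, zero_div, neg_zero, sub_zero] at hF
    rw [sub_eq_zero] at hF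
    rw [hF, Nat.factorial_succ]
    push_cast
    field_simp
    ring

theorem t_lapP : S_lapP := by
  intro P s hs
  have hw : 0 < (s - 1).re := by simpa using hs
  have e : (fun u : ℝ => (if u < 0 then 0 else (Real.exp u : ℂ) * P.eval (u : ℂ)) *
      Complex.exp (-(s * u))) = (Ici (0 : ℝ)).indicator
        (fun u : ℝ => ∑ j ∈ P.support, P.coeff j * ((u : ℂ) ^ j * Complex.exp (-((s - 1) * u)))) := by
    funext u
    by_cases hu : u < 0
    · rw [if_pos hu, zero_mul, indicator_of_notMem (by simpa using hu)]
    · rw [if_neg hu, indicator_of_mem (by simpa using hu), Polynomial.eval_eq_sum, Polynomial.sum,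
        Finset.mul_sum, Finset.sum_mul]
      refine Finset.sum_congr rfl fun j _ => ?_
      have : Complex.exp (-((s - 1) * u)) = Real.exp u * Complex.exp (-(s * u)) := by
        rw [Complex.ofReal_exp, ← Complex.exp_add]
        congr 1
        ring
      rw [this]
      ring
  have hI : ∀ j ∈ P.support, IntegrableOn (fun u : ℝ => P.coeff j * ((u : ℂ) ^ j *
      Complex.exp (-((s - 1) * u)))) (Ici 0) := by
    intro j _
    rw [integrableOn_Ici_iff_integrableOn_Ioi]
    exact (int_mono j hw).const_mul _
  constructor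
  · rw [e, integrable_indicator_iff measurableSet_Ici]
    exact integrable_finsetSum _ hI
  · unfold Lap RP
    rw [e, integral_indicator measurableSet_Ici, integral_finsetSum _ hI, Polynomial.sum]
    refine Finset.sum_congr rfl fun j _ => ?_
    rw [integral_const_mul, integral_Ici_eq_integral_Ioi, lap_mono j hw]
    ring

end Pool.Agent.Run7.h299.LD
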